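import Pool.Agent.Run7.h802.HP.Iface

/-!
# Project HP, piece NEWTON: a nondegenerate critical point modulo `p` lifts modulo `p ^ L`
-/

set_option autoImplicit false

namespace Pool.Agent.Run7.h882.HP

open MvPolynomial Pool.Agent.Run7.h802.HP
open scoped Matrix

/-- Taylor expansion to the first order. -/
theorem taylor {σ : Type} [Fintype σ] (f : MvPolynomial σ ℤ) (x v : σ → ℤ) (t : ℤ) :
    t ^ 2 ∣ eval (fun i => x i + t * v i) f - eval x f - t * ∑ k, v k * eval x (pderiv k f) := by
  classical
  induction f using MvPolynomial.induction_on with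
  | C a => simp
  | add f g hf hg =>
    have e : eval (fun i => x i + t * v i) (f + g) - eval x (f + g) -
        t * ∑ k, v k * eval x (pderiv k (f + g)) =
        (eval (fun i => x i + t * v i) f - eval x f - t * ∑ k, v k * eval x (pderiv k f)) +
        (eval (fun i => x i + t * v i) g - eval x g - t * ∑ k, v k * eval x (pderiv k g)) := by
      simp only [map_add, mul_add, Finset.sum_add_distrib]
      ring
    rw [e]
    exact dvd_add hf hg
  | mul_X f i hf =>
    have e : ∑ k, v k * eval x (pderiv k (f * X i)) =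
        (∑ k, v k * eval x (pderiv k f)) * x i + v i * eval x f := by
      have e1 : ∀ k, v k * eval x (pderiv k (f * X i)) =
          v k * eval x (pderiv k f) * x i + (if k = i then v k * eval x f else 0) := by
        intro k
        rw [pderiv_mul, pderiv_X]
        by_cases h : k = i
        · subst h
          simp [Pi.single_eq_same]
          ring
        · simp [Pi.single_apply, Ne.symm h, h]
          ring
      rw [Finset.sum_congr rfl fun k _ => e1 k, Finset.sum_add_distrib, ← Finset.sum_mul,
        Finset.sum_ite_eq' Finset.univ i, if_pos (Finset.mem_univ i)]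
    obtain ⟨w, hw⟩ := hf
    rw [e]
    simp only [map_mul, eval_X]
    have e2 : eval (fun i => x i + t * v i) f = eval x f + t * ∑ k, v k * eval x (pderiv k f) +
        t ^ 2 * w := by linarith
    rw [e2]
    exact ⟨w * x i + v i * (∑ k, v k * eval x (pderiv k f)) + t * v i * w, by ring⟩

theorem eval_cast {σ : Type} (p : ℕ) (f : MvPolynomial σ ℤ) (x : σ → ℤ) :
    ((eval x f : ℤ) : ZMod p) = eval₂ (Int.castRingHom (ZMod p)) (fun i => (x i : ZMod p)) f := by
  have h := eval₂_comp_left (Int.castRingHom (ZMod p)) (RingHom.id ℤ) x f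
  exact h

theorem newton : S_NEWTON := by
  intro n d a p hp x₀ hx0 hcrit hh
  suffices h : ∀ L : ℕ, ∃ x : Fin (n + 2) → ℤ, x 0 = 1 ∧ (∀ i, (p : ℤ) ∣ x i - x₀ i) ∧
      ∀ i : Fin (n + 1), (p : ℤ) ^ (L + 1) ∣ eval x (pderiv i.succ (form a)) by
    intro L
    obtain ⟨x, h1, h2, h3⟩ := h L
    exact ⟨x, h1, h2, fun i => (pow_dvd_pow _ (Nat.le_succ L)).trans (h3 i)⟩
  intro L
  induction L with
  | zero => exact ⟨x₀, hx0, by simp, by simpa using hcrit⟩
  | succ L ih =>
    obtain ⟨x, h0, h1, h2⟩ := ih
    choose c hc using h2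
    set M : Matrix (Fin (n + 1)) (Fin (n + 1)) ℤ :=
      Matrix.of fun i j : Fin (n + 1) => eval x (pderiv i.succ (pderiv j.succ (form a))) with hM
    have hxx : (fun i => (x i : ZMod p)) = fun i => (x₀ i : ZMod p) := by
      funext i
      exact ((ZMod.intCast_eq_intCast_iff_dvd_sub _ _ _).2 (h1 i)).symm
    have hdet : ¬ (p : ℤ) ∣ M.det := by
      intro h
      apply hh
      have e1 : ((M.det : ℤ) : ZMod p) = ((hess a x₀ : ℤ) : ZMod p) := by
        unfold hess
        have k1 : ((M.det : ℤ) : ZMod p) = ((Int.castRingHom (ZMod p)).mapMatrix M).det :=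
          (Int.castRingHom (ZMod p)).map_det M
        have k2 : (((Matrix.of fun i j : Fin (n + 1) =>
          eval x₀ (pderiv i.succ (pderiv j.succ (form a)))).det : ℤ) : ZMod p) =
            ((Int.castRingHom (ZMod p)).mapMatrix (Matrix.of fun i j : Fin (n + 1) =>
          eval x₀ (pderiv i.succ (pderiv j.succ (form a))))).det :=
          (Int.castRingHom (ZMod p)).map_det _
        rw [k1, k2]
        congr 1
        ext i j
        simp only [hM, RingHom.mapMatrix_apply, Matrix.map_apply, Matrix.of_apply,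
          Int.coe_castRingHom]
        rw [eval_cast, eval_cast, hxx]
      rw [← ZMod.intCast_zmod_eq_zero_iff_dvd, ← e1]
      exact (ZMod.intCast_zmod_eq_zero_iff_dvd _ _).2 h
    obtain ⟨u, w, huw⟩ : IsCoprime M.det (p : ℤ) := by
      rw [Int.isCoprime_iff_gcd_eq_one, Int.gcd_comm]
      exact (Nat.Prime.coprime_iff_not_dvd hp).2 (fun h => hdet (Int.natCast_dvd.2 h))
    let δ : Fin (n + 1) → ℤ := -u • (Mᵀ.adjugate *ᵥ c)
    have hδ : Mᵀ *ᵥ δ = (-u * M.det) • c := by
      rw [Matrix.mulVec_smul, Matrix.mulVec_mulVec, Matrix.mul_adjugate, Matrix.det_transpose,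
        Matrix.smul_mulVec, Matrix.one_mulVec, smul_smul]
    have hδ2 : ∀ i, ∑ k, δ k * M k i = -u * M.det * c i := by
      intro i
      have := congrFun hδ i
      rw [Pi.smul_apply, smul_eq_mul] at this
      rw [← this, Matrix.mulVec, dotProduct]
      exact Finset.sum_congr rfl fun k _ => by rw [Matrix.transpose_apply, mul_comm]
    let v : Fin (n + 2) → ℤ := Fin.cons 0 δ
    refine ⟨fun i => x i + (p : ℤ) ^ (L + 1) * v i, ?_, ?_, ?_⟩
    · simp [v, h0]
    · intro i
      have e : x i + (p : ℤ) ^ (L + 1) * v i - x₀ i = (x i - x₀ i) + p * (p ^ L * v i) := by ring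
      rw [e]
      exact dvd_add (h1 i) (dvd_mul_right _ _)
    · intro i
      obtain ⟨w', hw'⟩ := taylor (pderiv i.succ (form a)) x v ((p : ℤ) ^ (L + 1))
      have e1 : ∑ k, v k * eval x (pderiv k (pderiv i.succ (form a))) = -u * M.det * c i := by
        rw [Fin.sum_univ_succ, ← hδ2 i]
        simp [v, hM]
      rw [e1, hc] at hw'
      have e2 : eval (fun i => x i + (p : ℤ) ^ (L + 1) * v i) (pderiv i.succ (form a)) =
          (p : ℤ) ^ (L + 1 + 1) * (w * c i + (p : ℤ) ^ L * w') := by
        have e3 : u * M.det = 1 - w * p := by linarith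
        have e4 : -u * M.det * c i = -(1 - w * p) * c i := by rw [← e3]; ring
        rw [e4] at hw'
        have : (p : ℤ) ^ (L + 1 + 1) * (w * c i + (p : ℤ) ^ L * w') =
          (p : ℤ) ^ (L + 1) * (w * p) * c i + ((p : ℤ) ^ (L + 1)) ^ 2 * w' := by ring
        rw [this]
        linear_combination hw'
      rw [e2]
      exact dvd_mul_right _ _

end Pool.Agent.Run7.h882.HP
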